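import Mathlib

/-!
# The random unit-arrow drift model never homogenizes in the sense of the question

The kernel `p_ω(n,x)` feels the arrows at the neighbours of `x`, so `p_ω(n,x)/m_1(n,x)` cannot tend
to `1` in probability: condition (ii) fails for every `d ≥ 1` and every `ε ∈ (0, 1/(2d))`.
-/

set_option autoImplicit false
open MeasureTheory ProbabilityTheory Filter Topology
open scoped ENNReal NNReal

namespace Pool.Agent.Results.MP_31ab2b_pr.NoHomogenization

variable {d : ℕ}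

/-- the unit vector `± e_i` -/
def vec (u : Fin d × Bool) : Fin d → ℤ := Pi.single u.1 (if u.2 then 1 else -1)

/-- an environment: `ω x` codes the arrow `n_0(x) = vec (ω x)` -/
abbrev Env (d : ℕ) : Type := (Fin d → ℤ) → Fin d × Bool

/-- the law of the environment: independent arrows, uniform on `{± e_i}` -/
noncomputable def envLaw (d : ℕ) [NeZero d] : Measure (Env d) :=
  Measure.infinitePi (fun _ : Fin d → ℤ => (PMF.uniformOfFintype (Fin d × Bool)).toMeasure)

/-- transition probability from `x` to `z` -/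
noncomputable def trans (ε : ℝ) (ω : Env d) (x z : Fin d → ℤ) : ℝ :=
  open Classical in
  if x - z = vec (ω x) then 1 - (2 * (d : ℝ) - 1) * ε
  else if ∃ u : Fin d × Bool, x - z = vec u then ε else 0

/-- `p_ω(n, x) = P(X_n = x)` for the chain started at `0` -/
noncomputable def kern (ε : ℝ) (ω : Env d) : ℕ → (Fin d → ℤ) → ℝ
  | 0, x => if x = 0 then 1 else 0
  | n + 1, z => ∑ u : Fin d × Bool, kern ε ω n (z + vec u) * trans ε ω (z + vec u) z

/-- the averaged kernel `m_1(n, x)` -/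
noncomputable def avgKern [NeZero d] (ε : ℝ) (n : ℕ) (x : Fin d → ℤ) : ℝ :=
  ∫ ω, kern ε ω n x ∂(envLaw d)

/-- condition (i): under the averaged law, `X_n / √n` converges in law to a centred Gaussian with
covariance `σ² I`, `σ² > 0` -/
def AveragedCLT (d : ℕ) [NeZero d] (ε : ℝ) : Prop :=
  ∃ v : ℝ≥0, 0 < v ∧ ∀ f : BoundedContinuousFunction (Fin d → ℝ) ℝ,
    Tendsto (fun n : ℕ => ∑' x : Fin d → ℤ, avgKern ε n x * f (fun i => (x i : ℝ) / Real.sqrt n))
      atTop (𝓝 (∫ y, f y ∂(Measure.pi (fun _ : Fin d => gaussianReal 0 v))))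

/-- condition (ii): for all `C, δ > 0`,
`sup {μ(|p_ω(n,x)/m_1(n,x) - 1| > δ) : |x| ≤ C √n, m_1(n,x) > 0} → 0` -/
def KernelRatio (d : ℕ) [NeZero d] (ε : ℝ) : Prop :=
  ∀ C : ℝ, 0 < C → ∀ δ : ℝ, 0 < δ →
    Tendsto (fun n : ℕ => ⨆ x : Fin d → ℤ,
      ⨆ _ : Real.sqrt (∑ i, (x i : ℝ) ^ 2) ≤ C * Real.sqrt n ∧ 0 < avgKern (d := d) ε n x,
        envLaw d {ω | δ < |kern ε ω n x / avgKern ε n x - 1|}) atTop (𝓝 0)

/-- the model homogenizes -/
def Homogenizes (d : ℕ) [NeZero d] (ε : ℝ) : Prop := AveragedCLT d ε ∧ KernelRatio d ε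

section aux

instance [NeZero d] : IsProbabilityMeasure (envLaw d) := by
  unfold envLaw; infer_instance

lemma vec_inj {u v : Fin d × Bool} (h : vec u = vec v) : u = v := by
  obtain ⟨i, a⟩ := u
  obtain ⟨j, b⟩ := v
  unfold vec at h
  have h1 := congrFun h i
  simp only [Pi.single_eq_same] at h1
  by_cases hij : i = j
  · subst hij
    simp only [Pi.single_eq_same] at h1
    cases a <;> cases b <;> simp at h1 ⊢
  · rw [Pi.single_eq_of_ne hij] at h1
    cases a <;> simp at h1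

lemma vec_opp (i : Fin d) (b : Bool) : vec (i, b) + vec (i, !b) = 0 := by
  unfold vec
  rw [← Pi.single_add]
  cases b <;> simp

variable {ε : ℝ}

lemma trans_nb (ω : Env d) (z : Fin d → ℤ) (u : Fin d × Bool) :
    trans ε ω (z + vec u) z = if ω (z + vec u) = u then 1 - (2 * (d : ℝ) - 1) * ε else ε := by
  unfold trans
  rw [add_sub_cancel_left]
  by_cases h : ω (z + vec u) = u
  · rw [if_pos (by rw [h]), if_pos h]
  · rw [if_neg (fun h' => h (vec_inj h').symm), if_neg h, if_pos ⟨u, rfl⟩]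

lemma trans_bounds (hd : 1 ≤ d) (hε : 0 < ε) (hε2 : ε * (2 * d) < 1) (ω : Env d)
    (z : Fin d → ℤ) (u : Fin d × Bool) :
    ε ≤ trans ε ω (z + vec u) z ∧ trans ε ω (z + vec u) z ≤ 1 := by
  have hd' : (1:ℝ) ≤ d := by exact_mod_cast hd
  rw [trans_nb]
  split_ifs
  · constructor
    · nlinarith
    · nlinarith
  · constructor
    · exact le_rfl
    · nlinarith

lemma kern_nonneg (hd : 1 ≤ d) (hε : 0 < ε) (hε2 : ε * (2 * d) < 1) (ω : Env d) (n : ℕ) :
    ∀ x, 0 ≤ kern ε ω n x := by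
  induction n with
  | zero => intro x; simp only [kern]; split_ifs <;> norm_num
  | succ n ih =>
    intro x
    simp only [kern]
    exact Finset.sum_nonneg fun u _ => mul_nonneg (ih _)
      (hε.le.trans (trans_bounds hd hε hε2 ω x u).1)

lemma kern_le (hd : 1 ≤ d) (hε : 0 < ε) (hε2 : ε * (2 * d) < 1) (ω : Env d) (n : ℕ) :
    ∀ x, kern ε ω n x ≤ (Fintype.card (Fin d × Bool) : ℝ) ^ n := by
  induction n with
  | zero => intro x; simp only [kern]; split_ifs <;> norm_num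
  | succ n ih =>
    intro x
    simp only [kern]
    calc ∑ u, kern ε ω n (x + vec u) * trans ε ω (x + vec u) x
        ≤ ∑ _u : Fin d × Bool, (Fintype.card (Fin d × Bool) : ℝ) ^ n := by
          refine Finset.sum_le_sum fun u _ => ?_
          have h1 := trans_bounds hd hε hε2 ω x u
          have h2 := kern_nonneg hd hε hε2 ω n (x + vec u)
          calc kern ε ω n (x + vec u) * trans ε ω (x + vec u) x ≤ kern ε ω n (x + vec u) * 1 :=
                mul_le_mul_of_nonneg_left h1.2 h2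
            _ ≤ _ := by rw [mul_one]; exact ih _
      _ = _ := by rw [Finset.sum_const, Finset.card_univ, nsmul_eq_mul, pow_succ]; ring

lemma kern_step (hd : 1 ≤ d) (hε : 0 < ε) (hε2 : ε * (2 * d) < 1) (ω : Env d) (n : ℕ)
    (z : Fin d → ℤ) (u : Fin d × Bool) : ε * kern ε ω n (z + vec u) ≤ kern ε ω (n + 1) z := by
  simp only [kern]
  have h1 := trans_bounds hd hε hε2 ω z u
  have h2 := kern_nonneg hd hε hε2 ω n (z + vec u)
  calc ε * kern ε ω n (z + vec u) ≤ kern ε ω n (z + vec u) * trans ε ω (z + vec u) z := by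
        rw [mul_comm]; exact mul_le_mul_of_nonneg_left h1.1 h2
    _ ≤ _ := Finset.single_le_sum (f := fun u => kern ε ω n (z + vec u) * trans ε ω (z + vec u) z)
        (fun v _ => mul_nonneg (kern_nonneg hd hε hε2 ω n _)
          (hε.le.trans (trans_bounds hd hε hε2 ω z v).1)) (Finset.mem_univ u)

lemma kern_lower (hd : 1 ≤ d) (hε : 0 < ε) (hε2 : ε * (2 * d) < 1) (ω : Env d) (k : ℕ) :
    ε ^ (2 * k) ≤ kern ε ω (2 * k) 0 ∧
    ∀ u : Fin d × Bool, ε ^ (2 * k + 1) ≤ kern ε ω (2 * k + 1) (vec u) := by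
  have hodd : ∀ k : ℕ, ε ^ (2 * k) ≤ kern ε ω (2 * k) 0 →
      ∀ u : Fin d × Bool, ε ^ (2 * k + 1) ≤ kern ε ω (2 * k + 1) (vec u) := by
    intro k hk u
    have h := kern_step hd hε hε2 ω (2 * k) (vec u) (u.1, !u.2)
    rw [show vec u + vec (u.1, !u.2) = 0 from vec_opp u.1 u.2] at h
    calc ε ^ (2 * k + 1) = ε * ε ^ (2 * k) := by ring
      _ ≤ ε * kern ε ω (2 * k) 0 := mul_le_mul_of_nonneg_left hk hε.le
      _ ≤ _ := h
  induction k with
  | zero =>
    have h0 : ε ^ (2 * 0) ≤ kern ε ω (2 * 0) 0 := by simp [kern]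
    exact ⟨h0, hodd 0 h0⟩
  | succ k ih =>
    have h1 : ε ^ (2 * (k + 1)) ≤ kern ε ω (2 * (k + 1)) 0 := by
      have hu : (⟨0, hd⟩, true) = ((⟨0, hd⟩, true) : Fin d × Bool) := rfl
      have h := kern_step hd hε hε2 ω (2 * k + 1) 0 ((⟨0, hd⟩, true) : Fin d × Bool)
      rw [zero_add] at h
      calc ε ^ (2 * (k + 1)) = ε * ε ^ (2 * k + 1) := by ring
        _ ≤ ε * kern ε ω (2 * k + 1) (vec ((⟨0, hd⟩, true) : Fin d × Bool)) :=
            mul_le_mul_of_nonneg_left (ih.2 _) hε.le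
        _ ≤ kern ε ω (2 * k + 1 + 1) 0 := h
        _ = _ := by congr 1
    exact ⟨h1, hodd (k + 1) h1⟩

lemma kern_meas (n : ℕ) : ∀ x : Fin d → ℤ, Measurable (fun ω : Env d => kern ε ω n x) := by
  induction n with
  | zero => intro x; simp only [kern]; exact measurable_const
  | succ n ih =>
    intro x
    simp only [kern]
    refine Finset.measurable_fun_sum _ fun u _ => (ih _).mul ?_
    have h : (fun ω : Env d => trans ε ω (x + vec u) x)
        = (fun v : Fin d × Bool => if v = u then 1 - (2 * (d : ℝ) - 1) * ε else ε)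
          ∘ (fun ω : Env d => ω (x + vec u)) := by
      funext ω
      simp only [Function.comp, trans_nb]
    rw [h]
    exact (measurable_of_finite _).comp (measurable_pi_apply _)

variable [NeZero d]

lemma kern_int (hd : 1 ≤ d) (hε : 0 < ε) (hε2 : ε * (2 * d) < 1) (n : ℕ) (x : Fin d → ℤ) :
    Integrable (fun ω : Env d => kern ε ω n x) (envLaw d) := by
  refine (integrable_const ((Fintype.card (Fin d × Bool) : ℝ) ^ n)).mono'
    (kern_meas n x).aestronglyMeasurable (Filter.Eventually.of_forall fun ω => ?_)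
  rw [Real.norm_eq_abs, abs_of_nonneg (kern_nonneg hd hε hε2 ω n x)]
  exact kern_le hd hε hε2 ω n x

lemma avg_pos_of_lower (hd : 1 ≤ d) (hε : 0 < ε) (hε2 : ε * (2 * d) < 1) (n : ℕ) (x : Fin d → ℤ)
    {c : ℝ} (hc : 0 < c) (h : ∀ ω : Env d, c ≤ kern ε ω n x) : 0 < avgKern (d := d) ε n x := by
  have h1 : ∫ _ω : Env d, c ∂(envLaw d) ≤ ∫ ω, kern ε ω n x ∂(envLaw d) :=
    integral_mono (integrable_const _) (kern_int hd hε hε2 n x) h
  simp only [integral_const, probReal_univ, smul_eq_mul, one_mul] at h1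
  unfold avgKern
  linarith

lemma unif_ne_zero (t : Set (Fin d × Bool)) (ht : t.Nonempty) :
    (PMF.uniformOfFintype (Fin d × Bool)).toMeasure t ≠ 0 := by
  intro h
  rw [PMF.toMeasure_apply_eq_zero_iff _ (Set.toFinite t).measurableSet,
    PMF.support_uniformOfFintype] at h
  obtain ⟨x, hx⟩ := ht
  exact (Set.disjoint_left.1 h) (Set.mem_univ x) hx

/-- cylinder events at the neighbours of the origin have positive probability -/
lemma cyl_pos (t : (Fin d → ℤ) → Set (Fin d × Bool))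
    (ht : ∀ u : Fin d × Bool, (t (vec u)).Nonempty) :
    envLaw d {ω | ∀ u : Fin d × Bool, ω (vec u) ∈ t (vec u)} ≠ 0 := by
  have h : {ω : Env d | ∀ u : Fin d × Bool, ω (vec u) ∈ t (vec u)}
      = Set.pi (↑(Finset.univ.image (vec (d := d)))) t := by
    ext ω
    constructor
    · intro hω y hy
      rw [Finset.mem_coe, Finset.mem_image] at hy
      obtain ⟨u, _, rfl⟩ := hy
      exact hω u
    · intro hω u
      exact hω (vec u) (Finset.mem_coe.2 (Finset.mem_image_of_mem _ (Finset.mem_univ u)))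
  rw [h]
  unfold envLaw
  rw [Measure.infinitePi_pi _ (fun i _ => (Set.toFinite _).measurableSet)]
  rw [Finset.prod_ne_zero_iff]
  intro y hy
  simp only [Finset.mem_image, Finset.mem_univ, true_and] at hy
  obtain ⟨u, rfl⟩ := hy
  exact unif_ne_zero _ (ht u)

end aux

/-- Condition (ii) fails for every `d ≥ 1` and every `ε ∈ (0, 1/(2d))`. -/
theorem not_kernelRatio (d : ℕ) [NeZero d] (ε : ℝ) (hε : 0 < ε) (hε2 : ε < 1 / (2 * d)) :
    ¬ KernelRatio d ε := by
  intro hK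
  have hd : 1 ≤ d := NeZero.one_le
  have hd' : (1:ℝ) ≤ d := by exact_mod_cast hd
  have hεd : ε * (2 * d) < 1 := by rwa [lt_div_iff₀ (by positivity)] at hε2
  -- choice of δ
  obtain ⟨δ, hδ0, hδ1, hδ⟩ : ∃ δ : ℝ, 0 < δ ∧ δ < 1 ∧
      ε * (1 + δ) ^ 2 < (1 - δ) ^ 2 * (1 - (2 * d - 1) * ε) := by
    have hc : ContinuousAt (fun δ : ℝ => (1 - δ) ^ 2 * (1 - (2 * d - 1) * ε) - ε * (1 + δ) ^ 2) 0 := by
      fun_prop
    have h0 : (0:ℝ) < (fun δ : ℝ => (1 - δ) ^ 2 * (1 - (2 * d - 1) * ε) - ε * (1 + δ) ^ 2) 0 := by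
      simp only; nlinarith
    have h1 := hc.tendsto.eventually_const_lt h0
    have h2 : ∀ᶠ δ in 𝓝[>] (0:ℝ), 0 < (1 - δ) ^ 2 * (1 - (2 * d - 1) * ε) - ε * (1 + δ) ^ 2 :=
      nhdsWithin_le_nhds h1
    obtain ⟨δ, h3, h4⟩ := (h2.and (Ioo_mem_nhdsGT one_pos)).exists
    exact ⟨δ, h4.1, h4.2, by linarith⟩
  -- the two local events
  set E : Set (Env d) := {ω | ∀ u : Fin d × Bool, ω (vec u) ∈ {v | vec v ≠ vec u}} with hE
  set F : Set (Env d) := {ω | ∀ u : Fin d × Bool, ω (vec u) ∈ {v | vec v = vec u}} with hF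
  have hE0 : envLaw d E ≠ 0 := cyl_pos (fun y => {v | vec v ≠ y}) fun u =>
    ⟨(u.1, !u.2), fun h => by
      have := vec_inj h
      have := congrArg Prod.snd this
      simp at this⟩
  have hF0 : envLaw d F ≠ 0 := cyl_pos (fun y => {v | vec v = y}) fun u => ⟨u, rfl⟩
  set c : ℝ≥0∞ := min (envLaw d E) (envLaw d F) / (Fintype.card (Fin d × Bool) + 2) with hcdef
  have hc0 : 0 < c := by
    rw [hcdef]
    refine ENNReal.div_pos (ne_of_gt (lt_min (pos_iff_ne_zero.2 hE0) (pos_iff_ne_zero.2 hF0))) ?_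
    exact_mod_cast ENNReal.natCast_ne_top (Fintype.card (Fin d × Bool) + 2)
  have hev := (tendsto_order.1 (hK 1 one_pos δ hδ0)).2 c hc0
  obtain ⟨n0, hn0⟩ := eventually_atTop.1 hev
  set k := n0 + 1 with hk
  -- positivity of the averaged kernels
  have hm0 : 0 < avgKern (d := d) ε (2 * k + 2) 0 :=
    avg_pos_of_lower hd hε hεd _ _ (pow_pos hε (2 * (k + 1)))
      (fun ω => (kern_lower hd hε hεd ω (k + 1)).1)
  have hm1 : ∀ u : Fin d × Bool, 0 < avgKern (d := d) ε (2 * k + 1) (vec u) := fun u =>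
    avg_pos_of_lower hd hε hεd _ _ (pow_pos hε (2 * k + 1))
      (fun ω => (kern_lower hd hε hεd ω k).2 u)
  -- the bad events are small
  have hbad0 : envLaw d {ω : Env d |
      δ < |kern ε ω (2 * k + 2) 0 / avgKern (d := d) ε (2 * k + 2) 0 - 1|} < c := by
    refine lt_of_le_of_lt ?_ (hn0 (2 * k + 2) (by omega))
    refine le_iSup_of_le (0 : Fin d → ℤ) (le_iSup_of_le ⟨?_, hm0⟩ le_rfl)
    have h1 : ∑ i : Fin d, (((0 : Fin d → ℤ) i : ℤ) : ℝ) ^ 2 = 0 := by simp
    rw [h1, Real.sqrt_zero, one_mul]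
    exact Real.sqrt_nonneg _
  have hbad1 : ∀ u : Fin d × Bool, envLaw d
      {ω | δ < |kern ε ω (2 * k + 1) (vec u) / avgKern (d := d) ε (2 * k + 1) (vec u) - 1|} < c := by
    intro u
    refine lt_of_le_of_lt ?_ (hn0 (2 * k + 1) (by omega))
    refine le_iSup_of_le (vec u) (le_iSup_of_le ⟨?_, hm1 u⟩ le_rfl)
    have h1 : ∑ i, ((vec u i : ℤ) : ℝ) ^ 2 = 1 := by
      rw [Finset.sum_eq_single u.1]
      · unfold vec
        rw [Pi.single_eq_same]
        split_ifs <;> norm_num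
      · intro j _ hj
        unfold vec
        rw [Pi.single_eq_of_ne hj]
        norm_num
      · intro h; exact absurd (Finset.mem_univ _) h
    rw [h1, Real.sqrt_one, one_mul, Real.one_le_sqrt]
    exact_mod_cast (by omega : 1 ≤ 2 * k + 1)
  set B : Set (Env d) := {ω | δ < |kern ε ω (2 * k + 2) 0 / avgKern (d := d) ε (2 * k + 2) 0 - 1|} ∪
    ⋃ u : Fin d × Bool,
      {ω | δ < |kern ε ω (2 * k + 1) (vec u) / avgKern (d := d) ε (2 * k + 1) (vec u) - 1|} with hB
  have hBc : envLaw d B < min (envLaw d E) (envLaw d F) := by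
    have h1 : envLaw d B ≤ c + ∑ _u : Fin d × Bool, c := by
      refine (measure_union_le _ _).trans (add_le_add hbad0.le ?_)
      refine (measure_iUnion_fintype_le _ _).trans (Finset.sum_le_sum fun u _ => (hbad1 u).le)
    have hctop : c ≠ ⊤ := by
      rw [hcdef]
      refine (ENNReal.div_lt_top (ne_of_lt (lt_of_le_of_lt (min_le_left _ _) (measure_lt_top _ _))) ?_).ne
      simp
    have h2 : c * (Fintype.card (Fin d × Bool) + 2) = min (envLaw d E) (envLaw d F) := by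
      rw [hcdef]
      refine ENNReal.div_mul_cancel (by simp) ?_
      exact_mod_cast ENNReal.natCast_ne_top (Fintype.card (Fin d × Bool) + 2)
    rw [← h2]
    refine lt_of_le_of_lt h1 ?_
    rw [Finset.sum_const, Finset.card_univ, nsmul_eq_mul]
    have h3 : c * ((Fintype.card (Fin d × Bool) : ℝ≥0∞) + 2)
        = (c + (Fintype.card (Fin d × Bool) : ℝ≥0∞) * c) + c := by ring
    rw [h3]
    refine ENNReal.lt_add_right ?_ hc0.ne'
    refine ENNReal.add_ne_top.2 ⟨hctop, ENNReal.mul_ne_top (ENNReal.natCast_ne_top _) hctop⟩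
  obtain ⟨ω₁, hω₁E, hω₁B⟩ : ∃ ω, ω ∈ E ∧ ω ∉ B := by
    by_contra hcon
    push Not at hcon
    exact absurd (measure_mono (μ := envLaw d) hcon) (not_le.2 (lt_of_lt_of_le hBc (min_le_left _ _)))
  obtain ⟨ω₂, hω₂F, hω₂B⟩ : ∃ ω, ω ∈ F ∧ ω ∉ B := by
    by_contra hcon
    push Not at hcon
    exact absurd (measure_mono (μ := envLaw d) hcon) (not_le.2 (lt_of_lt_of_le hBc (min_le_right _ _)))
  -- consequences of being good
  have good : ∀ ω : Env d, ω ∉ B →
      ((1 - δ) * avgKern (d := d) ε (2 * k + 2) 0 ≤ kern ε ω (2 * k + 2) 0 ∧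
        kern ε ω (2 * k + 2) 0 ≤ (1 + δ) * avgKern (d := d) ε (2 * k + 2) 0) ∧
      ∀ u : Fin d × Bool, (1 - δ) * avgKern (d := d) ε (2 * k + 1) (vec u) ≤ kern ε ω (2 * k + 1) (vec u) ∧
        kern ε ω (2 * k + 1) (vec u) ≤ (1 + δ) * avgKern (d := d) ε (2 * k + 1) (vec u) := by
    intro ω hω
    have key : ∀ a m : ℝ, 0 < m → ¬ δ < |a / m - 1| → (1 - δ) * m ≤ a ∧ a ≤ (1 + δ) * m := by
      intro a m hm h
      have h := abs_le.1 (not_lt.1 h)
      have h1 : 1 - δ ≤ a / m := by linarith [h.1]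
      have h2 : a / m ≤ 1 + δ := by linarith [h.2]
      rw [le_div_iff₀ hm] at h1
      rw [div_le_iff₀ hm] at h2
      exact ⟨h1, h2⟩
    rw [hB] at hω
    simp only [Set.mem_union, Set.mem_iUnion, not_or, not_exists] at hω
    exact ⟨key _ _ hm0 hω.1, fun u => key _ _ (hm1 u) (hω.2 u)⟩
  set s : ℝ := ∑ u : Fin d × Bool, avgKern (d := d) ε (2 * k + 1) (vec u) with hs
  have hs0 : 0 < s := Finset.sum_pos (fun u _ => hm1 u) ⟨(⟨0, hd⟩, true), Finset.mem_univ _⟩
  -- on `E` no neighbour points to the origin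
  have h1 : (1 - δ) * avgKern (d := d) ε (2 * k + 2) 0 ≤ ε * ((1 + δ) * s) := by
    refine (good ω₁ hω₁B).1.1.trans ?_
    have e : kern ε ω₁ (2 * k + 2) 0 = ∑ u : Fin d × Bool, kern ε ω₁ (2 * k + 1) (vec u) * ε := by
      show ∑ u : Fin d × Bool, kern ε ω₁ (2 * k + 1) (0 + vec u) * trans ε ω₁ (0 + vec u) 0 = _
      refine Finset.sum_congr rfl fun u _ => ?_
      rw [trans_nb, zero_add, if_neg]
      intro h
      exact hω₁E u (by rw [h])
    have e2 : ∑ u : Fin d × Bool, kern ε ω₁ (2 * k + 1) (vec u) ≤ (1 + δ) * s := by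
      rw [hs, Finset.mul_sum]
      exact Finset.sum_le_sum fun u _ => ((good ω₁ hω₁B).2 u).2
    rw [e, ← Finset.sum_mul, mul_comm]
    exact mul_le_mul_of_nonneg_left e2 hε.le
  -- on `F` all neighbours point to the origin
  have h2 : (1 - (2 * (d:ℝ) - 1) * ε) * ((1 - δ) * s) ≤ (1 + δ) * avgKern (d := d) ε (2 * k + 2) 0 := by
    refine le_trans ?_ (good ω₂ hω₂B).1.2
    have e : kern ε ω₂ (2 * k + 2) 0
        = ∑ u : Fin d × Bool, kern ε ω₂ (2 * k + 1) (vec u) * (1 - (2 * (d:ℝ) - 1) * ε) := by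
      show ∑ u : Fin d × Bool, kern ε ω₂ (2 * k + 1) (0 + vec u) * trans ε ω₂ (0 + vec u) 0 = _
      refine Finset.sum_congr rfl fun u _ => ?_
      rw [trans_nb, zero_add, if_pos]
      exact vec_inj (hω₂F u)
    have e2 : (1 - δ) * s ≤ ∑ u : Fin d × Bool, kern ε ω₂ (2 * k + 1) (vec u) := by
      rw [hs, Finset.mul_sum]
      exact Finset.sum_le_sum fun u _ => ((good ω₂ hω₂B).2 u).1
    rw [e, ← Finset.sum_mul, mul_comm]
    refine mul_le_mul_of_nonneg_right e2 ?_
    nlinarith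
  have h3 : (1 - δ) ^ 2 * (1 - (2 * (d:ℝ) - 1) * ε) * s ≤ ε * (1 + δ) ^ 2 * s := by
    have h4 := mul_le_mul_of_nonneg_left h2 (by linarith : 0 ≤ 1 - δ)
    have h5 := mul_le_mul_of_nonneg_left h1 (by linarith : 0 ≤ 1 + δ)
    nlinarith
  have h4 := le_of_mul_le_mul_right h3 hs0
  linarith

/-- **The model never homogenizes in the sense of the question**: for every `d ≥ 1` and every
`ε ∈ (0, 1/(2d))` condition (ii) fails.  In particular, for `d ≥ 3` there is no `ε₀ > 0` such that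
the model homogenizes for every `ε ∈ (0, ε₀)`. -/
theorem result (d : ℕ) [NeZero d] (ε : ℝ) (hε : 0 < ε) (hε2 : ε < 1 / (2 * d)) :
    ¬ Homogenizes d ε ∧ ¬ KernelRatio d ε :=
  ⟨fun h => not_kernelRatio d ε hε hε2 h.2, not_kernelRatio d ε hε hε2⟩

end Pool.Agent.Results.MP_31ab2b_pr.NoHomogenization
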